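import Pool.Agent.Lib.MP_e6fef2_lc.V.Iface

/-!
# V_ENUM: a nonempty set of `V^B` of size at most `ℵ₁` is enumerated by `W`
-/

universe u

open Cardinal

namespace Pool.Agent.Lib.MP_e6fef2_lc.H7

open Pool.Agent.Lib.MP_100a6c_lc BName

/-- V_ENUM -/
theorem v_enum : VEnumStatement.{u} := by
  intro B _ Γ P hne hcard
  have hW : #W.{u} = Cardinal.aleph.{u} 1 := by rw [mk_ord_toType]
  obtain ⟨t, ht⟩ := exists_enum_type (Γ := Γ) (x := P) hW hcard
  obtain ⟨x0, hx0⟩ := exists_wit (ext_mem_left P) hne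
  have key : ∀ ξ : W.{u}, ∃ τ : BName B, Γ ⊓ bmem (t ξ) P ≤ beq τ (t ξ) ∧
      Γ ⊓ (bmem (t ξ) P)ᶜ ≤ beq τ x0 := by
    intro ξ
    obtain ⟨τ, hτ⟩ := mix (ι := ULift.{u} Bool)
      (fun i => if i.down then Γ ⊓ bmem (t ξ) P else Γ ⊓ (bmem (t ξ) P)ᶜ)
      (fun i => if i.down then t ξ else x0) (by
        rintro ⟨i⟩ ⟨j⟩
        cases i <;> cases j
        · simp only [beq_refl]
          exact le_top
        · simp only [Bool.false_eq_true, if_false, if_true]
          refine le_trans (le_inf (inf_le_right.trans inf_le_right)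
            (inf_le_left.trans inf_le_right)) ?_
          rw [inf_compl_self]
          exact bot_le
        · simp only [Bool.false_eq_true, if_false, if_true]
          refine le_trans (le_inf (inf_le_left.trans inf_le_right)
            (inf_le_right.trans inf_le_right)) ?_
          rw [inf_compl_self]
          exact bot_le
        · simp only [beq_refl]
          exact le_top)
    exact ⟨τ, by simpa using hτ ⟨true⟩, by simpa using hτ ⟨false⟩⟩
  choose p hp1 hp2 using key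
  refine ⟨p, fun ξ => ?_, fun x => ?_⟩
  · have h1 : Γ ⊓ bmem (t ξ) P ≤ bmem (p ξ) P :=
      (ext_mem_left P).of_le' (hp1 ξ) inf_le_right
    have h2 : Γ ⊓ (bmem (t ξ) P)ᶜ ≤ bmem (p ξ) P :=
      (ext_mem_left P).of_le' (hp2 ξ) (inf_le_left.trans hx0)
    calc Γ = Γ ⊓ (bmem (t ξ) P ⊔ (bmem (t ξ) P)ᶜ) := by rw [sup_compl_eq_top, inf_top_eq]
      _ = Γ ⊓ bmem (t ξ) P ⊔ Γ ⊓ (bmem (t ξ) P)ᶜ := inf_sup_left _ _ _
      _ ≤ bmem (p ξ) P := sup_le h1 h2
  · refine le_trans (le_inf le_rfl (ht x)) ?_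
    rw [inf_iSup_eq]
    refine iSup_mono fun ξ => ?_
    have h1 : Γ ⊓ bmem x P ⊓ beq x (t ξ) ≤ bmem (t ξ) P :=
      (ext_mem_left P).of_le (x := x) inf_le_right (inf_le_left.trans inf_le_right)
    have h2 : Γ ⊓ bmem x P ⊓ beq x (t ξ) ≤ beq (p ξ) (t ξ) :=
      le_trans (le_inf (inf_le_left.trans inf_le_left) h1) (hp1 ξ)
    exact (ext_eq_right x).of_le' h2 inf_le_right

end Pool.Agent.Lib.MP_e6fef2_lc.H7
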