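import Pool.Agent.Lib.MP_e6fef2_lc.V.Iface
import Pool.Agent.Lib.MP_6b029b_lc.U.H15.Los

/-!
# V_LOS: two-valued models

The notions of `V/Defs.lean` as formulas of the language of set theory; the quotient of `V^B` by an
ultrafilter.
-/

universe u v w

open scoped symmDiff

set_option linter.unusedSimpArgs false
set_option linter.unusedVariables false

namespace Pool.Agent.Lib.MP_e6fef2_lc.H7

open Pool.Agent.Lib.MP_100a6c_lc Pool.Agent.Lib.MP_c5d73d_lc.F
open Pool.Agent.Lib.MP_c5d73d_lc.F.H80 Pool.Agent.Lib.MP_c5d73d_lc.F.H80.Fm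
open Pool.Agent.Lib.MP_6b029b_lc.U.H15 (isf val_isf two_valued_sentence)

/-! ## Formulas -/

section
variable {n : ℕ}

abbrev s4 (i : Fin n) : Fin (n + 4) := i.succ.succ.succ.succ
abbrev s5 (i : Fin n) : Fin (n + 5) := i.succ.succ.succ.succ.succ
abbrev s6 (i : Fin n) : Fin (n + 6) := i.succ.succ.succ.succ.succ.succ
abbrev s7 (i : Fin n) : Fin (n + 7) := i.succ.succ.succ.succ.succ.succ.succ

def regf (θ : Fin n) : Fml n :=
  an (an (an (ord θ) (ex (.mem b0 (s1 θ))))
    (.all (.imp (.mem b0 (s1 θ)) (ex (an (.mem b0 (s2 θ)) (.mem b1 b0))))))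
    (.all (.imp (.mem b0 (s1 θ)) (.all (.imp (isf b0 b1 (s2 θ))
      (ex (an (.mem b0 (s3 θ)) (.all (.all (.imp (rel b3 b1 b0) (.mem b0 b2))))))))))

def hf (H θ : Fin n) : Fml n :=
  .all (bi (.mem b0 (s1 H)) (ex (an (an (tran b0) (sub b1 b0))
    (ex (an (.mem b0 (s3 θ)) (le b1 b0))))))

def clubf (C H μ : Fin n) : Fml n :=
  an (an (.all (.imp (.mem b0 (s1 C)) (an (sub b0 (s1 H)) (le b0 (s1 μ)))))
    (.all (.imp (an (sub b0 (s1 H)) (le b0 (s1 μ))) (ex (an (.mem b0 (s2 C)) (sub b1 b0))))))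
    (.all (.imp (an (an (an (sub b0 (s1 C)) (ex (.mem b0 b1))) (le b0 (s1 μ)))
      (.all (.all (.imp (an (.mem b1 b2) (.mem b0 b2)) (ore (sub b1 b0) (sub b0 b1))))))
      (.all (.imp (.all (bi (.mem b0 b1) (ex (an (.mem b0 b3) (.mem b1 b0)))))
        (.mem b0 (s2 C))))))

def pof (P r : Fin n) : Fml n :=
  an (preo P r) (.all (.all (.imp (an (an (an (.mem b1 (s2 P)) (.mem b0 (s2 P)))
    (rel (s2 r) b1 b0)) (rel (s2 r) b0 b1)) (.eq b1 b0))))

def faf (o P r : Fin n) : Fml n :=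
  .all (.imp (an (.all (.imp (.mem b0 b1) (dense (s2 P) (s2 r) b0))) (le b0 (s1 o)))
    (ex (an (filt (s2 P) (s2 r) b0)
      (.all (.imp (.mem b0 b2) (ex (an (.mem b0 b2) (.mem b0 b1))))))))

def genf (P r M q : Fin n) : Fml n :=
  .all (.imp (an (.mem b0 (s1 M)) (dense (s1 P) (s1 r) b0))
    (.all (.imp (an (.mem b0 (s2 P)) (rel (s2 r) b0 (s2 q)))
      (ex (an (an (.mem b0 b2) (.mem b0 (s3 M))) (cmp (s3 P) (s3 r) b0 b1))))))

def properf (P r : Fin n) : Fml n :=
  ex (ex (ex (ex (an (an (an (an (an (om b3) (regf b2)) (hf b1 b2))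
    (ex (an (pow b0 (s5 P)) (.mem b0 b2)))) (clubf b0 b1 b3))
    (.all (.imp (.mem b0 b1) (.all (.imp (an (.mem b0 (s6 P)) (.mem b0 b1))
      (ex (an (an (.mem b0 (s7 P)) (rel (s7 r) b0 b1)) (genf (s7 P) (s7 r) b2 b0)))))))))))

def cuf (C o : Fin n) : Fml n :=
  an (an (sub C o) (.all (.imp (.mem b0 (s1 o)) (ex (an (.mem b0 (s2 C)) (.mem b1 b0))))))
    (.all (.imp (an (an (.mem b0 (s1 o)) (ex (.mem b0 b1)))
      (.all (.imp (.mem b0 b1) (ex (an (an (.mem b0 (s3 C)) (.mem b0 b2)) (.mem b1 b0))))))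
      (.mem b0 (s1 C))))

def statf (A o : Fin n) : Fml n :=
  an (sub A o) (.all (.imp (cuf b0 (s1 o)) (ex (an (.mem b0 (s2 A)) (.mem b0 b1)))))

def fmf (P r E q a : Fin n) : Fml n :=
  .all (.imp (an (.mem b0 (s1 P)) (rel (s1 r) b0 (s1 q)))
    (ex (an (an (.mem b0 (s2 P)) (rel (s2 r) b0 b1))
      (ex (an (an (rel (s3 E) b0 (s3 a)) (.mem b0 (s3 P))) (rel (s3 r) b1 b0))))))

def fuf (P r E q d : Fin n) : Fml n :=
  .all (.imp (.mem b0 (s1 d)) (.all (.imp (an (.mem b0 (s2 P)) (rel (s2 r) b0 (s2 q)))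
    (ex (an (an (.mem b0 (s3 P)) (rel (s3 r) b0 b1))
      (ex (an (an (.mem b0 (s4 d)) (.mem b3 b0)) (fmf (s4 P) (s4 r) (s4 E) b1 b0))))))))

def fcf (o P r E p : Fin n) : Fml n :=
  an (fuf P r E p o) (.all (.imp (an (.mem b0 (s1 o)) (ex (.mem b0 b1)))
    (.all (.imp (an (an (.mem b0 (s2 P)) (rel (s2 r) b0 (s2 p)))
      (fuf (s2 P) (s2 r) (s2 E) b0 b1)) (fmf (s2 P) (s2 r) (s2 E) b0 b1)))))

def sspf (o P r : Fin n) : Fml n :=
  .all (.all (.all (.imp (an (an (statf b2 (s3 o)) (.mem b0 (s3 P)))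
    (fcf (s3 o) (s3 P) (s3 r) b1 b0))
    (ex (ex (an (an (an (.mem b1 (s5 P)) (rel (s5 r) b1 b2)) (.mem b0 b4))
      (fmf (s5 P) (s5 r) b3 b1 b0)))))))

def pfaf : Fml 0 :=
  .all (.all (.all (.all (.imp (an (an (an (an (om b3) (succ b2 b3)) (pof b1 b0)) (le b1 b2))
    (properf b1 b0)) (faf b2 b1 b0)))))

def mmf : Fml 0 :=
  .all (.all (.all (.all (.imp (an (an (an (an (om b3) (succ b2 b3)) (pof b1 b0)) (le b1 b2))
    (sspf b2 b1 b0)) (faf b2 b1 b0)))))

variable {B : Type v} {U : Type w} [CompleteBooleanAlgebra B] (S : Str B U) (v : Fin n → U)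

theorem val_regf (θ : Fin n) : val S (regf θ) v = S.isReg (v θ) := by
  simp only [regf, Str.isReg, val_ord, val_isf, val_rel, val_mem, val_eq, val_imp, val_all, val_neg, val_an, val_ore, val_bi, val_ex, b0, b1, b2, b3, b4, s1, s2, s3, Fin.cons_zero, Fin.cons_succ]

theorem val_hf (H θ : Fin n) : val S (hf H θ) v = S.isH (v H) (v θ) := by
  simp only [hf, Str.isH, val_tran, val_sub, val_le, val_mem, val_eq, val_imp, val_all, val_neg, val_an, val_ore, val_bi, val_ex, b0, b1, b2, b3, b4, s1, s2, s3, Fin.cons_zero, Fin.cons_succ]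

theorem val_clubf (C H μ : Fin n) : val S (clubf C H μ) v = S.isClub (v C) (v H) (v μ) := by
  simp only [clubf, Str.isClub, val_sub, val_le, val_mem, val_eq, val_imp, val_all, val_neg, val_an, val_ore, val_bi, val_ex, b0, b1, b2, b3, b4, s1, s2, s3, Fin.cons_zero, Fin.cons_succ]

theorem val_pof (P r : Fin n) : val S (pof P r) v = isPO S (v P) (v r) := by
  simp only [pof, isPO, val_preo, val_rel, val_mem, val_eq, val_imp, val_all, val_neg, val_an, val_ore, val_bi, val_ex, b0, b1, b2, b3, b4, s1, s2, s3, Fin.cons_zero, Fin.cons_succ]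

theorem val_faf (o P r : Fin n) : val S (faf o P r) v = FA S (v o) (v P) (v r) := by
  simp only [faf, FA, val_dense, val_filt, val_le, val_mem, val_eq, val_imp, val_all, val_neg, val_an, val_ore, val_bi, val_ex, b0, b1, b2, b3, b4, s1, s2, s3, Fin.cons_zero, Fin.cons_succ]

theorem val_genf (P r M q : Fin n) :
    val S (genf P r M q) v = isGen S (v P) (v r) (v M) (v q) := by
  simp only [genf, isGen, val_dense, val_cmp, val_rel, val_mem, val_eq, val_imp, val_all, val_neg, val_an, val_ore, val_bi, val_ex, b0, b1, b2, b3, b4, s1, s2, s3, Fin.cons_zero, Fin.cons_succ]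

theorem val_properf (P r : Fin n) : val S (properf P r) v = isProper S (v P) (v r) := by
  simp only [properf, isProper, val_om, val_regf, val_hf, val_pow, val_clubf, val_genf, val_rel, val_mem, val_eq, val_imp, val_all, val_neg, val_an, val_ore, val_bi, val_ex, b0, b1, b2, b3, b4, s1, s2, s3, s4, s5, s6, s7, Fin.cons_zero, Fin.cons_succ]

theorem val_cuf (C o : Fin n) : val S (cuf C o) v = isClosedUnb S (v C) (v o) := by
  simp only [cuf, isClosedUnb, val_sub, val_mem, val_eq, val_imp, val_all, val_neg, val_an, val_ore, val_bi, val_ex, b0, b1, b2, b3, b4, s1, s2, s3, Fin.cons_zero, Fin.cons_succ]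

theorem val_statf (A o : Fin n) : val S (statf A o) v = isStat S (v A) (v o) := by
  simp only [statf, isStat, val_sub, val_cuf, val_mem, val_eq, val_imp, val_all, val_neg, val_an, val_ore, val_bi, val_ex, b0, b1, b2, b3, b4, s1, s2, s3, Fin.cons_zero, Fin.cons_succ]

theorem val_fmf (P r E q a : Fin n) :
    val S (fmf P r E q a) v = forcesMem S (v P) (v r) (v E) (v q) (v a) := by
  simp only [fmf, forcesMem, val_rel, val_mem, val_eq, val_imp, val_all, val_neg, val_an, val_ore, val_bi, val_ex, b0, b1, b2, b3, b4, s1, s2, s3, Fin.cons_zero, Fin.cons_succ]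

theorem val_fuf (P r E q d : Fin n) :
    val S (fuf P r E q d) v = forcesUnb S (v P) (v r) (v E) (v q) (v d) := by
  simp only [fuf, forcesUnb, val_fmf, val_rel, val_mem, val_eq, val_imp, val_all, val_neg, val_an, val_ore, val_bi, val_ex, b0, b1, b2, b3, b4, s1, s2, s3, s4, Fin.cons_zero, Fin.cons_succ]

theorem val_fcf (o P r E p : Fin n) :
    val S (fcf o P r E p) v = forcesClub S (v o) (v P) (v r) (v E) (v p) := by
  simp only [fcf, forcesClub, val_fmf, val_fuf, val_rel, val_mem, val_eq, val_imp, val_all, val_neg, val_an, val_ore, val_bi, val_ex, b0, b1, b2, b3, b4, s1, s2, s3, s4, Fin.cons_zero, Fin.cons_succ]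

theorem val_sspf (o P r : Fin n) : val S (sspf o P r) v = isSSP S (v o) (v P) (v r) := by
  simp only [sspf, isSSP, val_statf, val_fmf, val_fcf, val_rel, val_mem, val_eq, val_imp, val_all, val_neg, val_an, val_ore, val_bi, val_ex, b0, b1, b2, b3, b4, s1, s2, s3, s4, s5, Fin.cons_zero, Fin.cons_succ]

theorem val_pfaf (v : Fin 0 → U) : val S pfaf v = PFA1 S := by
  simp only [pfaf, PFA1, val_om, val_succ, val_pof, val_le, val_properf, val_faf, val_mem, val_eq, val_imp, val_all, val_neg, val_an, val_ore, val_bi, val_ex, b0, b1, b2, b3, b4, s1, s2, s3, Fin.cons_zero, Fin.cons_succ]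

theorem val_mmf (v : Fin 0 → U) : val S mmf v = MM1 S := by
  simp only [mmf, MM1, val_om, val_succ, val_pof, val_le, val_sspf, val_faf, val_mem, val_eq, val_imp, val_all, val_neg, val_an, val_ore, val_bi, val_ex, b0, b1, b2, b3, b4, s1, s2, s3, Fin.cons_zero, Fin.cons_succ]

end

/-! ## V_LOS -/

/-- V_LOS -/
theorem v_los : VLosStatement.{u} := by
  intro B _ h0 hZ hP hM
  obtain ⟨M, E, h1, h2⟩ := two_valued_sentence B h0 hZ
  refine ⟨M, E, h1, ?_, ?_⟩
  · have := h2 pfaf (by rw [val_pfaf, hP])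
    rwa [val_pfaf] at this
  · have := h2 (neg mmf) (by rw [val_neg, val_mmf, hM, compl_bot])
    rw [val_neg, val_mmf] at this
    exact this

end Pool.Agent.Lib.MP_e6fef2_lc.H7
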